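import Pool.Agent.helper9.TR.Spec

namespace Pool.Agent.TB

open Pool.Agent.helper42.ML Pool.Agent.helper42.RH

theorem TR13 : TR13_stmt := by
  intro V X Y A h
  classical
  have hle : Y ≤ A := by
    rw [Multiset.le_iff_count]
    intro v
    have h1 := congrArg (Multiset.count v) h
    simp only [Multiset.count_add] at h1
    omega
  refine ⟨A - Y, ?_⟩
  ext v
  have h1 := congrArg (Multiset.count v) h
  have h2 := Multiset.le_iff_count.1 hle v
  simp only [Multiset.count_add, Multiset.count_sub] at h1 ⊢
  omega

end Pool.Agent.TB
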